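import Mathlib
import Pool.Agent.H797R2.Wiener.Lower

set_option autoImplicit false

open Pool.Agent.H797R2.Wiener
open scoped ENNReal

namespace Pool.Agent.Results.MP_de3d06_an.DeltaZero

/-- The critical constant: the infimum of the `δ` in `(0, 1]` for which the Wiener norm of `1/f`
is bounded over the class `Fam δ`. -/
noncomputable def deltaZero : ℝ := sInf {δ : ℝ | 0 < δ ∧ δ ≤ 1 ∧ CC δ < ⊤}

theorem result :
    deltaZero = 1 / 2 ∧
      (∀ δ : ℝ, 1 / 2 < δ → δ ≤ 1 → CC δ = ENNReal.ofReal (1 / (2 * δ - 1))) ∧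
      (∀ δ : ℝ, 0 < δ → δ ≤ 1 / 2 → CC δ = ⊤) := by
  refine ⟨?_, fun δ h1 h2 => CC_eq h1 h2, fun δ _ h => CC_top h⟩
  have hset : {δ : ℝ | 0 < δ ∧ δ ≤ 1 ∧ CC δ < ⊤} = Set.Ioc (1 / 2) 1 := by
    ext δ
    simp only [Set.mem_ofPred_eq, Set.mem_Ioc]
    constructor
    · rintro ⟨h0, h1, h2⟩
      refine ⟨?_, h1⟩
      by_contra hc
      rw [CC_top (not_lt.1 hc)] at h2
      exact lt_irrefl _ h2
    · rintro ⟨h0, h1⟩
      refine ⟨by linarith, h1, ?_⟩
      rw [CC_eq h0 h1]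
      exact ENNReal.ofReal_lt_top
  unfold deltaZero
  rw [hset, csInf_Ioc (by norm_num)]

end Pool.Agent.Results.MP_de3d06_an.DeltaZero
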